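import Pool.Agent.helper29.JZ.Spec

/-! # Row JNT of project jz (MP_3221a1_ag): the joint condition -/

set_option autoImplicit false

open Finset Polynomial Module

namespace Pool.Agent.helper88.JZ

open Pool.Agent.helper29.JZ

noncomputable section

open Classical in
theorem jz_JNT : JNT_stmt := by
  intro hTRA hTRB hED0 hHME hCNT hRZ1 hRZ2 hDIA h h' x y M P Q P' Q' a b hx hy hC hC'
  obtain ⟨t1, t2, t3, t4, t5, t6, t7, t8⟩ := hTRB hTRA h h' M
  have hHC : (HC x y M P Q).card ≤ (PA M).card := Finset.card_le_card (Finset.filter_subset _ _)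
  have hHB : (HB x y M P' Q').card ≤ (PB M).card := Finset.card_le_card (Finset.filter_subset _ _)
  have q1 := hC.eq
  have q2 := hC'.eq
  rw [t8 x y P' Q', t1] at q2
  by_cases he : max P.natDegree Q.natDegree = 0
  · left
    have h1 := hED0 h h' x y M P Q a hy hC he
    rcases Nat.eq_zero_or_pos b with hb | hb
    · have he' : max P'.natDegree Q'.natDegree = 0 := by omega
      have h2 := hED0 h' h y x (tr M) P' Q' b hx hC' he'
      rw [t7, hb] at h2
      omega
    · have : a ≤ a * b := Nat.le_mul_of_pos_right a hb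
      omega
  by_cases he' : max P'.natDegree Q'.natDegree = 0
  · left
    have h2 := hED0 h' h y x (tr M) P' Q' b hx hC' he'
    rw [t7] at h2
    have ha : 0 < a := by omega
    have : b ≤ a * b := Nat.le_mul_of_pos_left b ha
    omega
  by_cases hR : RR P Q P' Q' = 0
  · right
    obtain ⟨r1, r2⟩ := hRZ1 hHME P Q P' Q' hC.cop hC'.cop hR (by omega)
    have r3 := hRZ2 P Q P' Q' hC.cop hC'.cop hR r1 r2
    exact hDIA hTRA hTRB h h' x y M P Q P' Q' a b hx hy hC hC' r1 r2 r3
  · left
    have c1 := hCNT hHME h h' x y M P Q P' Q' hx hR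
    have hsub : PA M ∩ PB M ⊆ ((PA M \ HC x y M P Q) ∪ (PB M \ HB x y M P' Q')) ∪
        (HC x y M P Q ∩ HB x y M P' Q') := by
      intro z hz
      rw [Finset.mem_inter] at hz
      by_cases z1 : z ∈ HC x y M P Q
      · by_cases z2 : z ∈ HB x y M P' Q'
        · exact Finset.mem_union_right _ (Finset.mem_inter.2 ⟨z1, z2⟩)
        · exact Finset.mem_union_left _ (Finset.mem_union_right _ (Finset.mem_sdiff.2 ⟨hz.2, z2⟩))
      · exact Finset.mem_union_left _ (Finset.mem_union_left _ (Finset.mem_sdiff.2 ⟨hz.1, z1⟩))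
    have c2 := Finset.card_le_card hsub
    have c3 := Finset.card_union_le ((PA M \ HC x y M P Q) ∪ (PB M \ HB x y M P' Q'))
      (HC x y M P Q ∩ HB x y M P' Q')
    have c4 := Finset.card_union_le (PA M \ HC x y M P Q) (PB M \ HB x y M P' Q')
    have c5 : (PA M \ HC x y M P Q).card = (PA M).card - (HC x y M P Q).card :=
      Finset.card_sdiff_of_subset (Finset.filter_subset _ _)
    have c6 : (PB M \ HB x y M P' Q').card = (PB M).card - (HB x y M P' Q').card :=
      Finset.card_sdiff_of_subset (Finset.filter_subset _ _)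
    obtain ⟨u, hu⟩ : ∃ u, (PA M).card = (HC x y M P Q).card + u := ⟨_, (Nat.add_sub_of_le hHC).symm⟩
    obtain ⟨w, hw⟩ : ∃ w, (PB M).card = (HB x y M P' Q').card + w :=
      ⟨_, (Nat.add_sub_of_le hHB).symm⟩
    have ha : a = max P.natDegree Q.natDegree + u := by omega
    have hb : b = max P'.natDegree Q'.natDegree + w := by omega
    have d1 : (PA M \ HC x y M P Q).card = u := by omega
    have d2 : (PB M \ HB x y M P' Q').card = w := by omega
    rw [d1] at c4
    rw [d2] at c4
    have hfin : (PA M ∩ PB M).card ≤ u + w +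
        (max P'.natDegree Q'.natDegree * max P.natDegree Q.natDegree + 1) := by omega
    refine hfin.trans ?_
    rw [ha, hb]
    generalize max P.natDegree Q.natDegree = s at he
    generalize max P'.natDegree Q'.natDegree = s' at he'
    have k1 : w ≤ s * w := Nat.le_mul_of_pos_left w (by omega)
    have k2 : u ≤ u * s' := Nat.le_mul_of_pos_right u (by omega)
    nlinarith [Nat.zero_le (u * w)]

end

end Pool.Agent.helper88.JZ
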